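import Mathlib

set_option autoImplicit false

namespace Pool.Agent.H35Z.Herm

open MeasureTheory

/-- The `n`-th Hermite function
`h_n(t) = (-1)^n C_n e^{π t²} (d/dt)^n e^{-2π t²}`, `C_n = 2^{1/4} / √(n! (2π)^n 2^n)`. -/
noncomputable def hermiteFn (n : ℕ) (t : ℝ) : ℝ :=
  (-1) ^ n * ((2 : ℝ) ^ ((1 : ℝ) / 4) / Real.sqrt (n.factorial * (2 * Real.pi) ^ n * 2 ^ n)) *
    Real.exp (Real.pi * t ^ 2) *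
      iteratedDeriv n (fun s : ℝ => Real.exp (-2 * Real.pi * s ^ 2)) t

/-- The time-frequency shift `π(x, ω) g (t) = e^{2π i ω t} g(t - x)`. -/
noncomputable def tfShift (z : ℝ × ℝ) (g : ℝ → ℂ) (t : ℝ) : ℂ :=
  Complex.exp (2 * (Real.pi : ℂ) * Complex.I * (z.2 : ℂ) * (t : ℂ)) * g (t - z.1)

/-- The inner product `⟨f, π(z) g⟩ = ∫ f(t) conj(π(z) g (t)) dt`. -/
noncomputable def coeff (f g : ℝ → ℂ) (z : ℝ × ℝ) : ℂ :=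
  ∫ t : ℝ, f t * (starRingEnd ℂ) (tfShift z g t)

/-- The Gabor system `{π(γ) g : γ ∈ Γ}` is a frame for `L²(ℝ)`. -/
def IsFrame (g : ℝ → ℂ) (Γ : Set (ℝ × ℝ)) : Prop :=
  ∃ A B : ℝ, 0 < A ∧ A ≤ B ∧ ∀ f : ℝ → ℂ, MemLp f 2 volume →
    Summable (fun γ : Γ => ‖coeff f g γ‖ ^ 2) ∧
      A * ∫ t, ‖f t‖ ^ 2 ≤ ∑' γ : Γ, ‖coeff f g γ‖ ^ 2 ∧
      ∑' γ : Γ, ‖coeff f g γ‖ ^ 2 ≤ B * ∫ t, ‖f t‖ ^ 2

/-- `Γ` is separated: distinct points are at Euclidean distance at least some `δ > 0`. -/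
def IsSeparated (Γ : Set (ℝ × ℝ)) : Prop :=
  ∃ δ : ℝ, 0 < δ ∧ ∀ γ ∈ Γ, ∀ γ' ∈ Γ, γ ≠ γ' →
    δ ≤ Real.sqrt ((γ.1 - γ'.1) ^ 2 + (γ.2 - γ'.2) ^ 2)

/-- The lower Beurling density `liminf_{R → ∞} inf_z #(Γ ∩ (z + [0,R)²)) / R²`, in `[0, ∞]`. -/
noncomputable def lowerDensity (Γ : Set (ℝ × ℝ)) : ENNReal :=
  Filter.liminf (fun R : ℝ => ⨅ z : ℝ × ℝ,
    ((Γ ∩ Set.Ico z.1 (z.1 + R) ×ˢ Set.Ico z.2 (z.2 + R)).encard : ENNReal) /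
      ENNReal.ofReal (R ^ 2)) Filter.atTop

end Pool.Agent.H35Z.Herm
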