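import Mathlib

set_option autoImplicit false

namespace Pool.Agent.H35Z.Herm

variable {E : Type} [NormedAddCommGroup E] [CompleteSpace E]

lemma tail_bound (d : ℕ → E) (K r : ℝ) (hr0 : 0 ≤ r) (hr : r < 1)
    (h : ∀ i, ‖d i‖ ≤ K * r ^ i) : Summable d ∧ ‖∑' i, d i‖ ≤ K / (1 - r) := by
  have hs : HasSum (fun i : ℕ => K * r ^ i) (K / (1 - r)) := by
    rw [div_eq_mul_inv]
    exact (hasSum_geometric_of_lt_one hr0 hr).mul_left K
  exact ⟨Summable.of_norm_bounded hs.summable h, tsum_of_norm_bounded hs h⟩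

lemma geo_int (r : ℝ) (hr0 : 0 ≤ r) (hr : r < 1) : Summable fun i : ℤ => r ^ i.natAbs := by
  apply Summable.of_nat_of_neg
  · simpa using summable_geometric_of_lt_one hr0 hr
  · simpa using summable_geometric_of_lt_one hr0 hr

lemma right_tail (c : ℤ → E) (K r : ℝ) (hr0 : 0 ≤ r) (hr : r < 1)
    (h : ∀ i, ‖c i‖ ≤ K * r ^ i.natAbs) (m : ℤ) (hm : 0 ≤ m) :
    Summable (fun i : ℕ => c (m + i)) ∧ ‖∑' i : ℕ, c (m + i)‖ ≤ K * r ^ m.natAbs / (1 - r) := by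
  apply tail_bound _ _ _ hr0 hr
  intro i
  have e : (m + i).natAbs = m.natAbs + i := by omega
  have := h (m + i)
  rwa [e, pow_add, ← mul_assoc] at this

lemma left_tail (c : ℤ → E) (K r : ℝ) (hr0 : 0 ≤ r) (hr : r < 1)
    (h : ∀ i, ‖c i‖ ≤ K * r ^ i.natAbs) (m : ℤ) (hm : m ≤ 0) :
    Summable (fun i : ℕ => c (m - i)) ∧ ‖∑' i : ℕ, c (m - i)‖ ≤ K * r ^ m.natAbs / (1 - r) := by
  apply tail_bound _ _ _ hr0 hr
  intro i
  have e : (m - i).natAbs = m.natAbs + i := by omega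
  have := h (m - i)
  rwa [e, pow_add, ← mul_assoc] at this

lemma tsum_split (c : ℤ → E) (K r : ℝ) (hr0 : 0 ≤ r) (hr : r < 1)
    (h : ∀ i, ‖c i‖ ≤ K * r ^ i.natAbs) :
    ∑' i, c i = c 0 + ∑' i : ℕ, c (1 + i) + ∑' i : ℕ, c (-1 - i) := by
  have h1 := (right_tail c K r hr0 hr h 0 le_rfl).1
  have h2 := (left_tail c K r hr0 hr h (-1) (by norm_num)).1
  have h1' : Summable fun i : ℕ => c i := by simpa using h1
  have e : ∀ i : ℕ, (-1 - (i : ℤ)) = -((i : ℤ) + 1) := fun i => by ring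
  have h2' : Summable fun i : ℕ => c (-((i : ℤ) + 1)) := by simpa only [e] using h2
  rw [tsum_of_nat_of_neg_add_one h1' h2', h1'.tsum_eq_zero_add]
  simp only [e]
  congr 2
  refine tsum_congr fun i => ?_
  congr 1
  push_cast
  ring

lemma tsum_sub_zero (c : ℤ → E) (K r : ℝ) (hr0 : 0 ≤ r) (hr : r < 1)
    (h : ∀ i, ‖c i‖ ≤ K * r ^ i.natAbs) :
    ‖∑' i, c i - c 0‖ ≤ 2 * (K * r / (1 - r)) := by
  rw [tsum_split c K r hr0 hr h]
  have h1 := (right_tail c K r hr0 hr h 1 (by norm_num)).2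
  have h2 := (left_tail c K r hr0 hr h (-1) (by norm_num)).2
  have e : c 0 + ∑' i : ℕ, c (1 + i) + ∑' i : ℕ, c (-1 - i) - c 0 =
      ∑' i : ℕ, c (1 + i) + ∑' i : ℕ, c (-1 - i) := by abel
  rw [e]
  have := norm_add_le (∑' i : ℕ, c (1 + i)) (∑' i : ℕ, c (-1 - i))
  simp only [Int.natAbs_one, Int.natAbs_neg, pow_one] at h1 h2
  linarith

/-- The corrected primitive of a two-sided sequence. -/
noncomputable def prim (c : ℤ → E) (m : ℤ) : E :=
  if 0 ≤ m then -∑' i : ℕ, c (m + 1 + i) else ∑' i : ℕ, c (m - i)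

lemma prim_bound (c : ℤ → E) (K r : ℝ) (hK : 0 ≤ K) (hr0 : 0 ≤ r) (hr : r < 1)
    (h : ∀ i, ‖c i‖ ≤ K * r ^ i.natAbs) (m : ℤ) :
    ‖prim c m‖ ≤ K / (1 - r) * r ^ m.natAbs := by
  have h1r : 0 < 1 - r := by linarith
  unfold prim
  split_ifs with hm
  · rw [norm_neg]
    refine (right_tail c K r hr0 hr h (m + 1) (by omega)).2.trans ?_
    have e : (m + 1).natAbs = m.natAbs + 1 := by omega
    rw [e, div_mul_eq_mul_div]
    have : r ^ (m.natAbs + 1) ≤ r ^ m.natAbs := pow_le_pow_of_le_one hr0 hr.le (by omega)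
    gcongr
  · refine (left_tail c K r hr0 hr h m (by omega)).2.trans (le_of_eq ?_)
    ring

lemma prim_diff (c : ℤ → E) (K r : ℝ) (hr0 : 0 ≤ r) (hr : r < 1)
    (h : ∀ i, ‖c i‖ ≤ K * r ^ i.natAbs) (m : ℤ) :
    c m = prim c m - prim c (m - 1) + if m = 0 then ∑' i, c i else 0 := by
  rcases lt_trichotomy m 0 with hm | rfl | hm
  · have a1 : ¬ 0 ≤ m := by omega
    have a2 : ¬ 0 ≤ m - 1 := by omega
    have a3 : m ≠ 0 := by omega
    simp only [prim, a1, a2, a3, if_false, add_zero]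
    rw [(left_tail c K r hr0 hr h m hm.le).1.tsum_eq_zero_add]
    have e : ∀ i : ℕ, m - ((i + 1 : ℕ) : ℤ) = m - 1 - i := fun i => by push_cast; ring
    simp only [e]
    simp
  · have a2 : ¬ (0 : ℤ) ≤ 0 - 1 := by omega
    simp only [prim, a2, le_refl, if_false, if_true]
    rw [tsum_split c K r hr0 hr h]
    simp only [zero_add, zero_sub]
    abel
  · have a1 : 0 ≤ m := by omega
    have a2 : 0 ≤ m - 1 := by omega
    have a3 : m ≠ 0 := by omega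
    simp only [prim, a1, a2, a3, if_false, if_true, add_zero, sub_add_cancel]
    rw [(right_tail c K r hr0 hr h m hm.le).1.tsum_eq_zero_add]
    have e : ∀ i : ℕ, m + ((i + 1 : ℕ) : ℤ) = m + 1 + i := fun i => by push_cast; ring
    simp only [e]
    simp

lemma block_sum (c : ℤ → E) (K r : ℝ) (hr0 : 0 ≤ r) (hr : r < 1)
    (h : ∀ i, ‖c i‖ ≤ K * r ^ i.natAbs) (N : ℕ) (k : ℤ) :
    ∑ j ∈ Finset.range N, c (j - k) = prim c (N - 1 - k) - prim c (-1 - k) +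
      if 0 ≤ k ∧ k < N then ∑' i, c i else 0 := by
  induction N with
  | zero =>
    simp
  | succ N ih =>
    rw [Finset.sum_range_succ, ih, prim_diff c K r hr0 hr h (N - k)]
    have e1 : ((N + 1 : ℕ) : ℤ) - 1 - k = N - k := by push_cast; ring
    have e2 : (N : ℤ) - k - 1 = N - 1 - k := by ring
    rw [e1, e2]
    by_cases h1 : 0 ≤ k ∧ k < N
    · have a1 : ¬ ((N : ℤ) - k = 0) := by omega
      have a2 : 0 ≤ k ∧ k < ((N + 1 : ℕ) : ℤ) := by omega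
      rw [if_pos h1, if_neg a1, if_pos a2]
      abel
    · by_cases h2 : (N : ℤ) - k = 0
      · have a2 : 0 ≤ k ∧ k < ((N + 1 : ℕ) : ℤ) := by omega
        rw [if_neg h1, if_pos h2, if_pos a2]
        abel
      · have a2 : ¬ (0 ≤ k ∧ k < ((N + 1 : ℕ) : ℤ)) := by omega
        rw [if_neg h1, if_neg h2, if_neg a2]
        abel

lemma shift_sum_le (r : ℝ) (hr0 : 0 ≤ r) (hr : r < 1) (s : Finset ℤ) (b : ℤ) :
    ∑ k ∈ s, r ^ (b - k).natAbs ≤ ∑' i : ℤ, r ^ i.natAbs := by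
  have hinj : Function.Injective fun k : ℤ => b - k := fun x y h => by simpa using h
  have := (geo_int r hr0 hr).sum_le_tsum (s.map ⟨_, hinj⟩) (fun i _ => by positivity)
  rwa [Finset.sum_map] at this

/-- The key `ℓ²` estimate for block sums. -/
lemma block_l2 (K r : ℝ) (hK : 0 ≤ K) (hr0 : 0 ≤ r) (hr : r < 1) :
    ∃ C : ℝ, 0 ≤ C ∧ ∀ c : ℤ → E, (∀ i, ‖c i‖ ≤ K * r ^ i.natAbs) → ∀ (N : ℕ) (s : Finset ℤ),
      ∑ k ∈ s, ‖∑ j ∈ Finset.range N, c (j - k)‖ ^ 2 ≤ C + 3 * N * ‖∑' i, c i‖ ^ 2 := by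
  have h1r : 0 < 1 - r := by linarith
  set G := ∑' i : ℤ, r ^ i.natAbs with hG
  have hG0 : 0 ≤ G := tsum_nonneg fun i => by positivity
  set L := K / (1 - r) with hL
  have hL0 : 0 ≤ L := by positivity
  refine ⟨6 * L ^ 2 * G, by positivity, fun c h N s => ?_⟩
  set S := ∑' i, c i with hS
  have hp : ∀ m : ℤ, ‖prim c m‖ ^ 2 ≤ L ^ 2 * r ^ m.natAbs := by
    intro m
    have h1 := prim_bound c K r hK hr0 hr h m
    have h2 : r ^ m.natAbs ≤ 1 := pow_le_one₀ hr0 hr.le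
    have h3 : 0 ≤ r ^ m.natAbs := by positivity
    calc ‖prim c m‖ ^ 2 ≤ (L * r ^ m.natAbs) ^ 2 := by gcongr
      _ = L ^ 2 * (r ^ m.natAbs * r ^ m.natAbs) := by ring
      _ ≤ L ^ 2 * (r ^ m.natAbs * 1) := by gcongr
      _ = _ := by ring
  have hk : ∀ k : ℤ, ‖∑ j ∈ Finset.range N, c (j - k)‖ ^ 2 ≤
      3 * (L ^ 2 * r ^ ((N : ℤ) - 1 - k).natAbs) + 3 * (L ^ 2 * r ^ (-1 - k).natAbs) +
        3 * (if 0 ≤ k ∧ k < N then ‖S‖ ^ 2 else 0) := by
    intro k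
    rw [block_sum c K r hr0 hr h N k]
    have a1 := hp (N - 1 - k)
    have a2 := hp (-1 - k)
    set u := prim c (N - 1 - k)
    set v := prim c (-1 - k)
    set w : E := if 0 ≤ k ∧ k < N then ∑' i, c i else 0 with hw
    have a3 : ‖w‖ ^ 2 = if 0 ≤ k ∧ k < N then ‖S‖ ^ 2 else 0 := by
      rw [hw]; split_ifs <;> simp [hS]
    rw [← a3]
    have a4 : ‖u - v + w‖ ≤ ‖u‖ + ‖v‖ + ‖w‖ :=
      (norm_add_le _ _).trans (by have := norm_sub_le u v; linarith)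
    have a5 : ‖u - v + w‖ ^ 2 ≤ (‖u‖ + ‖v‖ + ‖w‖) ^ 2 := by gcongr
    nlinarith [sq_nonneg (‖u‖ - ‖v‖), sq_nonneg (‖u‖ - ‖w‖), sq_nonneg (‖v‖ - ‖w‖)]
  refine (Finset.sum_le_sum fun k _ => hk k).trans ?_
  rw [Finset.sum_add_distrib, Finset.sum_add_distrib]
  simp only [← Finset.mul_sum]
  have b1 := shift_sum_le r hr0 hr s (N - 1)
  have b2 := shift_sum_le r hr0 hr s (-1)
  have b3 : ∑ k ∈ s, (if 0 ≤ k ∧ k < N then ‖S‖ ^ 2 else 0) ≤ N * ‖S‖ ^ 2 := by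
    rw [← Finset.sum_filter, Finset.sum_const, nsmul_eq_mul]
    have : (s.filter fun k : ℤ => 0 ≤ k ∧ k < N).card ≤ N := by
      have h1 : (s.filter fun k : ℤ => 0 ≤ k ∧ k < N) ⊆ Finset.Ico (0 : ℤ) N := by
        intro k hk
        simp only [Finset.mem_filter] at hk
        exact Finset.mem_Ico.2 hk.2
      simpa using Finset.card_le_card h1
    have h2 : ((s.filter fun k : ℤ => 0 ≤ k ∧ k < N).card : ℝ) ≤ N := by exact_mod_cast this
    gcongr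
  have c1 : L ^ 2 * ∑ k ∈ s, r ^ ((N : ℤ) - 1 - k).natAbs ≤ L ^ 2 * G := by gcongr
  have c2 : L ^ 2 * ∑ k ∈ s, r ^ (-1 - k).natAbs ≤ L ^ 2 * G := by gcongr
  linarith

lemma exp_shift (K a y : ℝ) (hK : 0 ≤ K) (ha : 0 ≤ a) (M : ℝ) (hM : |y| ≤ M) (i : ℤ) :
    K * Real.exp (-|y + i * a|) ≤ K * Real.exp M * Real.exp (-a) ^ i.natAbs := by
  rw [mul_assoc, ← Real.exp_nat_mul, ← Real.exp_add]
  have e : ((i.natAbs : ℕ) : ℝ) = |(i : ℝ)| := by
    rw [Nat.cast_natAbs]; simp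
  have h1 : |(i : ℝ) * a| ≤ |y + i * a| + |y| := by
    have := abs_sub (y + i * a) y
    simpa using this
  rw [abs_mul, abs_of_nonneg ha] at h1
  gcongr
  rw [e]
  linarith

lemma zak_cont (u : ℤ → ℝ → E) (hu : ∀ i, Continuous (u i)) (K a : ℝ) (hK : 0 ≤ K) (ha : 0 < a)
    (h : ∀ i y, ‖u i y‖ ≤ K * Real.exp (-|y + i * a|)) : Continuous fun y => ∑' i, u i y := by
  rw [continuous_iff_continuousAt]
  intro y0
  have hr : Real.exp (-a) < 1 := Real.exp_lt_one_iff.2 (by linarith)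
  have hc : ContinuousOn (fun y => ∑' i, u i y) (Set.Icc (-(|y0| + 1)) (|y0| + 1)) := by
    refine continuousOn_tsum (fun i => (hu i).continuousOn)
      (((geo_int _ (Real.exp_pos (-a)).le hr)).mul_left (K * Real.exp (|y0| + 1))) ?_
    intro i y hy
    exact (h i y).trans (exp_shift K a y hK ha.le _ (abs_le.2 hy) i)
  refine hc.continuousAt (Icc_mem_nhds ?_ ?_)
  · linarith [neg_abs_le y0]
  · linarith [le_abs_self y0]

end Pool.Agent.H35Z.Herm
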