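import Mathlib
import Pool.Agent.H35Z.Herm.Defs
import Pool.Agent.H35Z.Herm.Seq

set_option autoImplicit false

namespace Pool.Agent.H35Z.Herm

open MeasureTheory Real

/-- The character `e^{2 π i s}`. -/
noncomputable def ch (s : ℝ) : ℂ := Complex.exp (2 * (π : ℂ) * Complex.I * (s : ℂ))

lemma ch_add (s t : ℝ) : ch (s + t) = ch s * ch t := by
  unfold ch
  rw [← Complex.exp_add]
  congr 1
  push_cast
  ring

lemma ch_int (k : ℤ) : ch k = 1 := by
  unfold ch
  have := Complex.exp_int_mul_two_pi_mul_I k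
  rw [← this]
  congr 1
  push_cast
  ring

lemma norm_ch (s : ℝ) : ‖ch s‖ = 1 := by
  unfold ch
  have : 2 * (π : ℂ) * Complex.I * (s : ℂ) = ((2 * π * s : ℝ) : ℂ) * Complex.I := by
    push_cast; ring
  rw [this, Complex.norm_exp_ofReal_mul_I]

lemma conj_ch (s : ℝ) : (starRingEnd ℂ) (ch s) = ch (-s) := by
  unfold ch
  rw [← Complex.exp_conj]
  congr 1
  simp only [map_mul, Complex.conj_ofReal, Complex.conj_I, map_ofNat]
  push_cast
  ring

lemma ch_cont : Continuous ch := by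
  unfold ch
  fun_prop

lemma parseval_short (v : ℝ → ℂ) (hv : Continuous v) (a η : ℝ) (hη : 0 < η) (hηa : η ≤ a)
    (L : Finset ℤ) :
    ∑ l ∈ L, ‖∫ t in (0 : ℝ)..η, ch (-(l / a * t)) * v t‖ ^ 2 ≤
      a * ∫ t in (0 : ℝ)..η, ‖v t‖ ^ 2 := by
  have ha : 0 < a := lt_of_lt_of_le hη hηa
  set u : ℝ → ℂ := (Set.Ioc 0 η).indicator v with hu
  have hL2 : MemLp u 2 (volume.restrict (Set.Ioc 0 a)) := by
    apply MemLp.indicator measurableSet_Ioc
    obtain ⟨C, hC⟩ := (isCompact_Icc (a := (0 : ℝ)) (b := a)).exists_bound_of_continuousOn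
      hv.continuousOn
    refine MemLp.of_bound hv.aestronglyMeasurable C ?_
    filter_upwards [ae_restrict_mem measurableSet_Ioc] with t ht
    exact hC t (Set.Ioc_subset_Icc_self ht)
  have h := hasSum_sq_fourierCoeffOn ha hL2
  have hI : Set.Ioc (0 : ℝ) a ∩ Set.Ioc 0 η = Set.Ioc 0 η :=
    Set.inter_eq_right.2 (Set.Ioc_subset_Ioc_right hηa)
  have e1 : ∀ l : ℤ, fourierCoeffOn ha u l =
      (1 / a) • ∫ t in (0 : ℝ)..η, ch (-(l / a * t)) * v t := by
    intro l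
    rw [fourierCoeffOn_eq_integral, sub_zero]
    congr 1
    rw [intervalIntegral.integral_of_le ha.le, intervalIntegral.integral_of_le hη.le]
    have : (fun x : ℝ => (fourier (-l) (x : AddCircle a)) • u x) =
        (Set.Ioc 0 η).indicator fun t => ch (-(l / a * t)) * v t := by
      ext t
      by_cases ht : t ∈ Set.Ioc 0 η
      · simp only [hu, Set.indicator_of_mem ht, fourier_coe_apply, smul_eq_mul, ch]
        congr 2
        push_cast
        ring
      · simp [hu, Set.indicator_of_notMem ht]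
    rw [this, setIntegral_indicator measurableSet_Ioc, hI]
  have e2 : ∫ t in (0 : ℝ)..a, ‖u t‖ ^ 2 = ∫ t in (0 : ℝ)..η, ‖v t‖ ^ 2 := by
    rw [intervalIntegral.integral_of_le ha.le, intervalIntegral.integral_of_le hη.le]
    have : (fun t : ℝ => ‖u t‖ ^ 2) = (Set.Ioc 0 η).indicator fun t => ‖v t‖ ^ 2 := by
      ext t
      by_cases ht : t ∈ Set.Ioc 0 η
      · simp only [hu, Set.indicator_of_mem ht]
      · simp [hu, Set.indicator_of_notMem ht]
    rw [this, setIntegral_indicator measurableSet_Ioc, hI]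
  rw [e2, sub_zero] at h
  have h2 := sum_le_hasSum L (fun i _ => by positivity) h
  simp only [e1, norm_smul, mul_pow, smul_eq_mul, ← Finset.mul_sum] at h2
  rw [Real.norm_eq_abs, sq_abs] at h2
  have h3 := mul_le_mul_of_nonneg_left h2 (sq_nonneg a)
  have e3 : ∀ X : ℝ, a ^ 2 * ((1 / a) ^ 2 * X) = X := fun X => by field_simp
  have e4 : ∀ X : ℝ, a ^ 2 * (a⁻¹ * X) = a * X := fun X => by field_simp
  rwa [e3, e4] at h3

/-- The test functions. -/
noncomputable def comb (a η : ℝ) (N : ℕ) (t : ℝ) : ℂ :=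
  ∑ j ∈ Finset.range N, (Set.Ioc ((j : ℝ) * a) (j * a + η)).indicator (fun _ => (1 : ℂ)) t

lemma comb_memLp (a η : ℝ) (N : ℕ) : MemLp (comb a η N) 2 volume := by
  unfold comb
  refine memLp_finsetSum _ fun j _ => ?_
  exact memLp_indicator_const 2 measurableSet_Ioc 1 (Or.inr (by simp))

lemma comb_norm (a η : ℝ) (hη : 0 ≤ η) (N : ℕ) : N * η ≤ ∫ t, ‖comb a η N t‖ ^ 2 := by
  have hi : Integrable (fun t => ‖comb a η N t‖ ^ 2) :=
    (memLp_two_iff_integrable_sq_norm (comb_memLp a η N).1).1 (comb_memLp a η N)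
  have hj : ∀ j : ℕ, Integrable
      ((Set.Ioc ((j : ℝ) * a) (j * a + η)).indicator fun _ => (1 : ℝ)) := by
    intro j
    exact (integrable_indicator_iff measurableSet_Ioc).2 (integrableOn_const (by simp))
  have e : ∫ t, ∑ j ∈ Finset.range N,
      (Set.Ioc ((j : ℝ) * a) (j * a + η)).indicator (fun _ => (1 : ℝ)) t = N * η := by
    rw [integral_finsetSum _ fun j _ => hj j]
    have : ∀ j : ℕ, ∫ t, (Set.Ioc ((j : ℝ) * a) (j * a + η)).indicator (fun _ => (1 : ℝ)) t = η := by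
      intro j
      rw [integral_indicator measurableSet_Ioc]
      simp [hη]
    simp [this]
  rw [← e]
  refine integral_mono (integrable_finsetSum _ fun j _ => hj j) hi fun t => ?_
  classical
  set m : ℕ := ((Finset.range N).filter fun j : ℕ =>
    t ∈ Set.Ioc ((j : ℝ) * a) (j * a + η)).card with hm
  have h1 : ∑ j ∈ Finset.range N,
      (Set.Ioc ((j : ℝ) * a) (j * a + η)).indicator (fun _ => (1 : ℝ)) t = m := by
    simp only [Set.indicator_apply, hm]
    rw [Finset.sum_boole]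
  have h2 : comb a η N t = m := by
    simp only [comb, Set.indicator_apply, hm]
    rw [Finset.sum_boole]
  show ∑ j ∈ Finset.range N,
      (Set.Ioc ((j : ℝ) * a) (j * a + η)).indicator (fun _ => (1 : ℝ)) t ≤ ‖comb a η N t‖ ^ 2
  rw [h1, h2, Complex.norm_natCast]
  exact_mod_cast Nat.le_self_pow two_ne_zero m

/-- The terms of the Zak sum. -/
noncomputable def zt (g : ℝ → ℂ) (a ω : ℝ) (i : ℤ) (y : ℝ) : ℂ := ch (ω * (i * a)) * g (y + i * a)

lemma zt_cont (g : ℝ → ℂ) (hg : Continuous g) (a ω : ℝ) (i : ℤ) : Continuous (zt g a ω i) := by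
  unfold zt
  fun_prop

lemma zt_norm (g : ℝ → ℂ) (a ω : ℝ) (i : ℤ) (y : ℝ) : ‖zt g a ω i y‖ = ‖g (y + i * a)‖ := by
  rw [zt, norm_mul, norm_ch, one_mul]

lemma coeff_comb (g : ℝ → ℂ) (hg : Continuous g) (a η : ℝ) (ha : 0 < a) (hη : 0 < η) (N : ℕ)
    (x ω : ℝ) (k l : ℤ) :
    coeff (comb a η N) g (x + k * a, ω + l / a) =
      ∫ t in (0 : ℝ)..η, ch (-(l / a * t)) * (starRingEnd ℂ)
        (ch (ω * (t + k * a)) * ∑ j ∈ Finset.range N, zt g a ω (j - k) (t - x)) := by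
  set G : ℝ → ℂ := fun t => (starRingEnd ℂ) (tfShift (x + k * a, ω + l / a) g t) with hG
  have hGc : Continuous G := by
    refine Complex.continuous_conj.comp ?_
    unfold tfShift
    fun_prop
  have h1 : coeff (comb a η N) g (x + k * a, ω + l / a) =
      ∑ j ∈ Finset.range N, ∫ t in (0 : ℝ)..η, G (t + j * a) := by
    have e : (fun t => comb a η N t * G t) = fun t => ∑ j ∈ Finset.range N,
        (Set.Ioc ((j : ℝ) * a) (j * a + η)).indicator G t := by
      ext t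
      rw [comb, Finset.sum_mul]
      refine Finset.sum_congr rfl fun j _ => ?_
      by_cases ht : t ∈ Set.Ioc ((j : ℝ) * a) (j * a + η)
      · simp [Set.indicator_of_mem ht]
      · simp [Set.indicator_of_notMem ht]
    change ∫ t, comb a η N t * G t = _
    rw [e, integral_finsetSum]
    · refine Finset.sum_congr rfl fun j _ => ?_
      rw [integral_indicator measurableSet_Ioc, intervalIntegral.integral_comp_add_right,
        intervalIntegral.integral_of_le (by linarith), zero_add, add_comm η]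
    · intro j _
      exact (integrable_indicator_iff measurableSet_Ioc).2
        (hGc.integrableOn_Icc.mono_set Set.Ioc_subset_Icc_self)
  rw [h1, ← intervalIntegral.integral_finsetSum]
  · refine intervalIntegral.integral_congr fun t _ => ?_
    simp only [Finset.mul_sum, map_sum]
    refine Finset.sum_congr rfl fun j _ => ?_
    rw [← conj_ch, ← map_mul]
    simp only [hG]
    congr 1
    have e1 : tfShift (x + k * a, ω + l / a) g (t + j * a) =
        ch ((ω + l / a) * (t + j * a)) * g (t + j * a - (x + k * a)) := by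
      simp only [tfShift, ch]
      congr 2
      push_cast
      ring
    have e2 : (ω + l / a) * (t + j * a) =
        l / a * t + (ω * (t + k * a) + (ω * ((((j : ℤ) - k : ℤ) : ℝ) * a) + ((l * j : ℤ) : ℝ))) := by
      push_cast
      field_simp
      ring
    have e3 : t + j * a - (x + k * a) = t - x + (((j : ℤ) - k : ℤ) : ℝ) * a := by
      push_cast
      ring
    rw [e1, e2, e3, ch_add, ch_add, ch_add, ch_int, zt]
    ring
  · intro j _
    exact (hGc.comp (by fun_prop)).intervalIntegrable _ _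

lemma coset_bound (g : ℝ → ℂ) (hg : Continuous g) (K a : ℝ) (hK : 0 ≤ K) (ha : 0 < a)
    (hb : ∀ s, ‖g s‖ ≤ K * Real.exp (-|s|)) (x ω : ℝ) :
    ∃ C : ℝ, 0 ≤ C ∧ ∀ η δ : ℝ, 0 < η → η ≤ a →
      (∀ t ∈ Set.Icc 0 η, ‖∑' i, zt g a ω i (t - x)‖ ≤ δ) → ∀ (N : ℕ) (Ks Ls : Finset ℤ),
        ∑ k ∈ Ks, ∑ l ∈ Ls, ‖coeff (comb a η N) g (x + k * a, ω + l / a)‖ ^ 2 ≤
          a * (η * (C + 3 * N * δ ^ 2)) := by
  have hr : Real.exp (-a) < 1 := Real.exp_lt_one_iff.2 (by linarith)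
  obtain ⟨C, hC, hl2⟩ := block_l2 (E := ℂ) (K * Real.exp (a + |x|)) (Real.exp (-a))
    (by positivity) (Real.exp_pos _).le hr
  refine ⟨C, hC, fun η δ hη hηa hδ N Ks Ls => ?_⟩
  have hc : ∀ k : ℤ, Continuous fun t : ℝ => ∑ j ∈ Finset.range N, zt g a ω (j - k) (t - x) := by
    intro k
    refine continuous_finsetSum _ fun j _ => (zt_cont g hg a ω _).comp (by fun_prop)
  have h1 : ∀ k : ℤ, ∑ l ∈ Ls, ‖coeff (comb a η N) g (x + k * a, ω + l / a)‖ ^ 2 ≤
      a * ∫ t in (0 : ℝ)..η, ‖∑ j ∈ Finset.range N, zt g a ω (j - k) (t - x)‖ ^ 2 := by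
    intro k
    simp only [coeff_comb g hg a η ha hη]
    refine (parseval_short _ ?_ a η hη hηa Ls).trans (le_of_eq ?_)
    · exact Complex.continuous_conj.comp ((ch_cont.comp (by fun_prop)).mul (hc k))
    · simp only [Complex.norm_conj, norm_mul, norm_ch, one_mul]
  refine (Finset.sum_le_sum fun k _ => h1 k).trans ?_
  have hc2 : ∀ k : ℤ, Continuous fun t : ℝ =>
      ‖∑ j ∈ Finset.range N, zt g a ω (j - k) (t - x)‖ ^ 2 := fun k => ((hc k).norm).pow 2
  rw [← Finset.mul_sum, ← intervalIntegral.integral_finsetSum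
    (fun k _ => (hc2 k).intervalIntegrable _ _)]
  gcongr
  have h2 : ∫ _ in (0 : ℝ)..η, (C + 3 * N * δ ^ 2) = η * (C + 3 * N * δ ^ 2) := by
    rw [intervalIntegral.integral_const, sub_zero, smul_eq_mul]
  rw [← h2]
  refine intervalIntegral.integral_mono_on hη.le ?_ (by simp) fun t ht => ?_
  · exact (continuous_finsetSum _ fun k _ => hc2 k).intervalIntegrable _ _
  · refine (hl2 (fun i => zt g a ω i (t - x)) (fun i => ?_) N Ks).trans ?_
    · rw [zt_norm]
      refine (hb _).trans (exp_shift K a _ hK ha.le _ ?_ i)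
      have := abs_sub t x
      rw [abs_of_nonneg ht.1] at this
      linarith [ht.2]
    · have := hδ t ht
      gcongr

/-- The periodic configuration generated by `T` and the lattice `aℤ × a⁻¹ℤ`. -/
def conf (a : ℝ) (T : Finset (ℝ × ℝ)) : Set (ℝ × ℝ) :=
  {γ | ∃ z ∈ T, ∃ k l : ℤ, γ = (z.1 + k * a, z.2 + l / a)}

lemma conf_sum (a : ℝ) (T : Finset (ℝ × ℝ)) (F : ℝ × ℝ → ℝ) (hF : ∀ γ, 0 ≤ F γ)
    (s : Finset (conf a T)) : ∃ Ks Ls : Finset ℤ,
      ∑ γ ∈ s, F γ ≤ ∑ z ∈ T, ∑ k ∈ Ks, ∑ l ∈ Ls, F (z.1 + k * a, z.2 + l / a) := by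
  classical
  have h : ∀ γ : conf a T, ∃ p : (ℝ × ℝ) × ℤ × ℤ, p.1 ∈ T ∧
      (γ : ℝ × ℝ) = (p.1.1 + p.2.1 * a, p.1.2 + p.2.2 / a) := by
    rintro ⟨γ, z, hz, k, l, h⟩
    exact ⟨(z, k, l), hz, h⟩
  choose τ hτ1 hτ2 using h
  have hinj : Function.Injective τ := by
    intro γ γ' h
    apply Subtype.ext
    rw [hτ2 γ, hτ2 γ', h]
  refine ⟨s.image fun γ => (τ γ).2.1, s.image fun γ => (τ γ).2.2, ?_⟩
  set G : (ℝ × ℝ) × ℤ × ℤ → ℝ := fun p => F (p.1.1 + p.2.1 * a, p.1.2 + p.2.2 / a) with hG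
  have e1 : ∑ γ ∈ s, F γ = ∑ p ∈ s.map ⟨τ, hinj⟩, G p := by
    rw [Finset.sum_map]
    refine Finset.sum_congr rfl fun γ _ => ?_
    rw [hτ2 γ]
    rfl
  have e2 : ∑ z ∈ T, ∑ k ∈ s.image fun γ => (τ γ).2.1, ∑ l ∈ s.image fun γ => (τ γ).2.2,
      F (z.1 + k * a, z.2 + l / a) =
      ∑ p ∈ T ×ˢ ((s.image fun γ => (τ γ).2.1) ×ˢ (s.image fun γ => (τ γ).2.2)), G p := by
    rw [Finset.sum_product]
    refine Finset.sum_congr rfl fun z _ => ?_
    rw [Finset.sum_product]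
  rw [e1, e2]
  refine Finset.sum_le_sum_of_subset_of_nonneg ?_ fun p _ _ => hF _
  intro p hp
  obtain ⟨γ, hγ, rfl⟩ := Finset.mem_map.1 hp
  simp only [Finset.mem_product, Finset.mem_image, Function.Embedding.coeFn_mk]
  exact ⟨hτ1 γ, ⟨γ, hγ, rfl⟩, ⟨γ, hγ, rfl⟩⟩

theorem not_frame (g : ℝ → ℂ) (hg : Continuous g) (K a : ℝ) (hK : 0 ≤ K) (ha : 0 < a)
    (hb : ∀ s, ‖g s‖ ≤ K * Real.exp (-|s|)) (T : Finset (ℝ × ℝ))
    (hT : ∀ z ∈ T, ∑' i, zt g a z.2 i (-z.1) = 0) : ¬ IsFrame g (conf a T) := by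
  rintro ⟨A, B, hA, -, hf⟩
  choose C hC0 hC using fun z : ℝ × ℝ => coset_bound g hg K a hK ha hb z.1 z.2
  set M : ℝ := (T.card : ℝ) with hM
  have hM0 : 0 ≤ M := by positivity
  set δ : ℝ := min 1 (A / (6 * a * (M + 1))) with hδ
  have hδ0 : 0 < δ := by positivity
  have hδ2 : 3 * a * M * δ ^ 2 ≤ A / 2 := by
    have h1 : δ ≤ 1 := min_le_left _ _
    have h2 : δ ≤ A / (6 * a * (M + 1)) := min_le_right _ _
    rw [le_div_iff₀ (by positivity)] at h2
    have h3 : δ ^ 2 ≤ δ := by nlinarith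
    have h4 : 3 * a * M * δ ^ 2 ≤ 3 * a * (M + 1) * δ := by gcongr; linarith
    linarith
  have hev : ∀ᶠ t in nhds (0 : ℝ), ∀ z ∈ T, ‖∑' i, zt g a z.2 i (t - z.1)‖ < δ := by
    rw [Filter.eventually_all_finset]
    intro z hz
    have hc : Continuous fun y => ∑' i, zt g a z.2 i y :=
      zak_cont _ (zt_cont g hg a z.2) K a hK ha fun i y => by rw [zt_norm]; exact hb _
    have hc2 : Continuous fun t : ℝ => ‖∑' i, zt g a z.2 i (t - z.1)‖ :=
      (hc.comp (continuous_id.sub continuous_const)).norm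
    refine hc2.continuousAt.eventually_lt continuousAt_const ?_
    simp only [zero_sub, hT z hz, norm_zero]
    exact hδ0
  obtain ⟨ε, hε, hε2⟩ := Metric.eventually_nhds_iff.1 hev
  set η : ℝ := min a (ε / 2) with hη
  have hη0 : 0 < η := by positivity
  have hηa : η ≤ a := min_le_left _ _
  have hηδ : ∀ z ∈ T, ∀ t ∈ Set.Icc 0 η, ‖∑' i, zt g a z.2 i (t - z.1)‖ ≤ δ := by
    intro z hz t ht
    refine (hε2 ?_ z hz).le
    rw [Real.dist_eq, sub_zero, abs_of_nonneg ht.1]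
    have := min_le_right a (ε / 2)
    linarith [ht.2]
  obtain ⟨N, hN⟩ := exists_nat_gt (2 * (a * ∑ z ∈ T, C z) / A)
  rw [div_lt_iff₀ hA] at hN
  obtain ⟨hs, hlow, -⟩ := hf _ (comb_memLp a η N)
  have hup : ∑' γ : conf a T, ‖coeff (comb a η N) g γ‖ ^ 2 ≤
      ∑ z ∈ T, a * (η * (C z + 3 * N * δ ^ 2)) := by
    refine hs.tsum_le_of_sum_le fun s => ?_
    obtain ⟨Ks, Ls, h⟩ := conf_sum a T (fun γ => ‖coeff (comb a η N) g γ‖ ^ 2)
      (fun _ => by positivity) s
    exact h.trans (Finset.sum_le_sum fun z hz => hC z η δ hη0 hηa (hηδ z hz) N Ks Ls)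
  have e : ∑ z ∈ T, a * (η * (C z + 3 * N * δ ^ 2)) =
      η * (a * ∑ z ∈ T, C z + N * (3 * a * M * δ ^ 2)) := by
    rw [← Finset.mul_sum, ← Finset.mul_sum, Finset.sum_add_distrib, Finset.sum_const,
      nsmul_eq_mul]
    ring
  have h1 := mul_le_mul_of_nonneg_left (comb_norm a η hη0.le N) hA.le
  have h2 : A * (N * η) ≤ η * (a * ∑ z ∈ T, C z + N * (3 * a * M * δ ^ 2)) := by
    rw [← e]; linarith
  have h3 : (N : ℝ) * (3 * a * M * δ ^ 2) ≤ N * (A / 2) := by gcongr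
  have h4 : η * (a * ∑ z ∈ T, C z + N * (3 * a * M * δ ^ 2)) < η * (A * N) := by
    gcongr
    linarith
  linarith

end Pool.Agent.H35Z.Herm
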