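import Mathlib
import Pool.Agent.H35Z.Herm.NonFrame

set_option autoImplicit false

namespace Pool.Agent.H35Z.Herm

open MeasureTheory Real

lemma gap_one (d b : ℝ) (hb : 0 < b) :
    ∃ δ : ℝ, 0 < δ ∧ ∀ k : ℤ, d + k * b ≠ 0 → δ ≤ |d + k * b| := by
  by_cases h : ∃ m : ℤ, d + m * b = 0
  · obtain ⟨m, hm⟩ := h
    refine ⟨b, hb, fun k hk => ?_⟩
    have e : d + k * b = ((k - m : ℤ) : ℝ) * b := by push_cast; linarith
    rw [e] at hk ⊢
    have h1 : k - m ≠ 0 := fun h => hk (by rw [h]; simp)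
    have h2 : (1 : ℝ) ≤ |((k - m : ℤ) : ℝ)| := by exact_mod_cast Int.one_le_abs h1
    rw [abs_mul, abs_of_pos hb]
    nlinarith
  · push Not at h
    set m : ℤ := ⌊-d / b⌋ with hm
    have h1 : (m : ℝ) ≤ -d / b := Int.floor_le _
    have h2 : -d / b < m + 1 := Int.lt_floor_add_one _
    rw [le_div_iff₀ hb] at h1
    rw [div_lt_iff₀ hb] at h2
    have h3 : d + m * b < 0 := lt_of_le_of_ne (by linarith) (h m)
    refine ⟨min (-(d + m * b)) (d + (m + 1) * b), lt_min (by linarith) (by linarith),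
      fun k _ => ?_⟩
    rcases le_or_gt k m with hk | hk
    · have : (k : ℝ) ≤ m := by exact_mod_cast hk
      refine (min_le_left _ _).trans ?_
      rw [le_abs]; right
      nlinarith
    · have : (m : ℝ) + 1 ≤ k := by exact_mod_cast hk
      refine (min_le_right _ _).trans ?_
      rw [le_abs]; left
      nlinarith

theorem conf_sep (a : ℝ) (ha : 0 < a) (T : Finset (ℝ × ℝ)) : IsSeparated (conf a T) := by
  have h : ∀ p : (ℝ × ℝ) × (ℝ × ℝ), ∃ δ : ℝ, 0 < δ ∧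
      (∀ k : ℤ, (p.1.1 - p.2.1) + k * a ≠ 0 → δ ≤ |(p.1.1 - p.2.1) + k * a|) ∧
      (∀ k : ℤ, (p.1.2 - p.2.2) + k * a⁻¹ ≠ 0 → δ ≤ |(p.1.2 - p.2.2) + k * a⁻¹|) := by
    intro p
    obtain ⟨δ1, h1, h1'⟩ := gap_one (p.1.1 - p.2.1) a ha
    obtain ⟨δ2, h2, h2'⟩ := gap_one (p.1.2 - p.2.2) a⁻¹ (inv_pos.2 ha)
    exact ⟨min δ1 δ2, lt_min h1 h2, fun k hk => (min_le_left _ _).trans (h1' k hk),
      fun k hk => (min_le_right _ _).trans (h2' k hk)⟩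
  choose δ hδ hδ1 hδ2 using h
  have hev : ∀ᶠ e in nhdsWithin (0 : ℝ) (Set.Ioi 0), ∀ p ∈ T ×ˢ T, e ≤ δ p := by
    rw [Filter.eventually_all_finset]
    intro p _
    exact Filter.Eventually.filter_mono nhdsWithin_le_nhds (eventually_le_nhds (hδ p))
  obtain ⟨e, he, he0⟩ := (hev.and self_mem_nhdsWithin).exists
  refine ⟨e, he0, ?_⟩
  rintro _ ⟨z, hz, k, l, rfl⟩ _ ⟨z', hz', k', l', rfl⟩ hne
  have hp := he (z, z') (Finset.mem_product.2 ⟨hz, hz'⟩)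
  have e1 : z.1 + k * a - (z'.1 + k' * a) = (z.1 - z'.1) + ((k - k' : ℤ) : ℝ) * a := by
    push_cast; ring
  have e2 : z.2 + l / a - (z'.2 + l' / a) = (z.2 - z'.2) + ((l - l' : ℤ) : ℝ) * a⁻¹ := by
    push_cast; ring
  simp only []
  by_cases h1 : z.1 + k * a - (z'.1 + k' * a) = 0
  · have h2 : z.2 + l / a - (z'.2 + l' / a) ≠ 0 := by
      intro h2
      apply hne
      exact Prod.ext (sub_eq_zero.1 h1) (sub_eq_zero.1 h2)
    rw [h1]
    rw [e2] at h2 ⊢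
    refine hp.trans ((hδ2 (z, z') _ h2).trans ?_)
    apply Real.abs_le_sqrt
    simp
  · rw [e1] at h1 ⊢
    refine hp.trans ((hδ1 (z, z') _ h1).trans ?_)
    apply Real.abs_le_sqrt
    simp only [le_add_iff_nonneg_right]
    positivity

lemma coset_unique (u b x x' : ℝ) (k k' : ℤ) (hx : x ∈ Set.Ico u (u + b))
    (hx' : x' ∈ Set.Ico u (u + b)) (h : x + k * b = x' + k' * b) : x = x' ∧ k = k' := by
  have hb : 0 < b := by linarith [hx.1, hx.2]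
  have h1 : ((k - k' : ℤ) : ℝ) < 1 := by
    push_cast
    by_contra hc
    push Not at hc
    nlinarith [hx.1, hx.2, hx'.1, hx'.2]
  have h2 : (-1 : ℝ) < ((k - k' : ℤ) : ℝ) := by
    push_cast
    by_contra hc
    push Not at hc
    nlinarith [hx.1, hx.2, hx'.1, hx'.2]
  have h3 : k - k' < 1 := by exact_mod_cast h1
  have h4 : -1 < k - k' := by exact_mod_cast h2
  obtain rfl : k = k' := by omega
  exact ⟨by linarith, rfl⟩

lemma window (b x w R : ℝ) (hb : 0 < b) (hR : 0 ≤ R) (i : ℕ) (hi : i < ⌊R / b⌋₊) :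
    x + ((⌈(w - x) / b⌉ + i : ℤ) : ℝ) * b ∈ Set.Ico w (w + R) := by
  have h1 : (w - x) / b ≤ ⌈(w - x) / b⌉ := Int.le_ceil _
  have h2 : (⌈(w - x) / b⌉ : ℝ) < (w - x) / b + 1 := Int.ceil_lt_add_one _
  have h3 : (⌊R / b⌋₊ : ℝ) ≤ R / b := Nat.floor_le (by positivity)
  have h4 : (i : ℝ) + 1 ≤ ⌊R / b⌋₊ := by exact_mod_cast hi
  have h5 : (0 : ℝ) ≤ i := by positivity
  rw [div_le_iff₀ hb] at h1
  rw [le_div_iff₀ hb] at h3
  have h6 : (⌈(w - x) / b⌉ : ℝ) * b < w - x + b := by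
    have := mul_lt_mul_of_pos_right h2 hb
    rwa [add_mul, div_mul_cancel₀ _ hb.ne', one_mul] at this
  push_cast
  constructor <;> nlinarith

lemma conf_count (a u v : ℝ) (ha : 0 < a) (T : Finset (ℝ × ℝ))
    (hT : ∀ z ∈ T, z.1 ∈ Set.Ico u (u + a) ∧ z.2 ∈ Set.Ico v (v + a⁻¹)) (w : ℝ × ℝ) (R : ℝ)
    (hR : 0 ≤ R) : ((T.card * (⌊R / a⌋₊ * ⌊R / a⁻¹⌋₊) : ℕ) : ℕ∞) ≤
      (conf a T ∩ Set.Ico w.1 (w.1 + R) ×ˢ Set.Ico w.2 (w.2 + R)).encard := by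
  classical
  set D := T ×ˢ (Finset.range ⌊R / a⌋₊ ×ˢ Finset.range ⌊R / a⁻¹⌋₊) with hD
  have hc : D.card = T.card * (⌊R / a⌋₊ * ⌊R / a⁻¹⌋₊) := by simp [hD]
  rw [← hc, ← Set.encard_coe_eq_coe_finsetCard]
  refine Set.encard_le_encard_of_injOn (f := fun p : (ℝ × ℝ) × ℕ × ℕ =>
    ((p.1.1 + ((⌈(w.1 - p.1.1) / a⌉ + p.2.1 : ℤ) : ℝ) * a,
      p.1.2 + ((⌈(w.2 - p.1.2) / a⁻¹⌉ + p.2.2 : ℤ) : ℝ) * a⁻¹) : ℝ × ℝ)) ?_ ?_
  · intro p hp
    simp only [hD, Finset.coe_product, Set.mem_prod, Finset.mem_coe, Finset.mem_range] at hp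
    refine ⟨⟨p.1, hp.1, _, _, by rw [div_eq_mul_inv]⟩, ?_, ?_⟩
    · exact window a _ _ R ha hR _ hp.2.1
    · exact window a⁻¹ _ _ R (inv_pos.2 ha) hR _ hp.2.2
  · intro p hp q hq h
    simp only [hD, Finset.coe_product, Set.mem_prod, Finset.mem_coe, Finset.mem_range] at hp hq
    simp only [Prod.mk.injEq] at h
    obtain ⟨a1, a2⟩ := coset_unique u a _ _ _ _ (hT _ hp.1).1 (hT _ hq.1).1 h.1
    obtain ⟨b1, b2⟩ := coset_unique v a⁻¹ _ _ _ _ (hT _ hp.1).2 (hT _ hq.1).2 h.2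
    rw [a1] at a2
    rw [b1] at b2
    refine Prod.ext (Prod.ext a1 b1) (Prod.ext ?_ ?_)
    · exact_mod_cast add_left_cancel a2
    · exact_mod_cast add_left_cancel b2

theorem conf_density (a u v : ℝ) (ha : 0 < a) (T : Finset (ℝ × ℝ))
    (hT : ∀ z ∈ T, z.1 ∈ Set.Ico u (u + a) ∧ z.2 ∈ Set.Ico v (v + a⁻¹)) (m : ℕ)
    (hm : m < T.card) : (m : ENNReal) < lowerDensity (conf a T) := by
  have hlt : (m : ENNReal) < ENNReal.ofReal (m + 1 / 2) := by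
    rw [← ENNReal.ofReal_natCast]
    exact (ENNReal.ofReal_lt_ofReal_iff (by positivity)).2 (by linarith)
  refine hlt.trans_le ?_
  unfold lowerDensity
  refine Filter.le_liminf_of_le (by isBoundedDefault) ?_
  set c : ℝ := a + a⁻¹ with hc
  have hc0 : 0 < c := by positivity
  filter_upwards [Filter.eventually_ge_atTop (2 * (m + 1) * c)] with R hR
  have hm0 : (0 : ℝ) ≤ m := by positivity
  have hRc : c ≤ R := by nlinarith
  have hR0 : 0 < R := by linarith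
  refine le_iInf fun w => ?_
  have h1 := conf_count a u v ha T hT w R hR0.le
  rw [ENNReal.le_div_iff_mul_le (Or.inl (by simp; positivity)) (Or.inl ENNReal.ofReal_ne_top)]
  refine le_trans ?_ (ENat.toENNReal_le.2 h1)
  rw [ENat.toENNReal_coe, ← ENNReal.ofReal_mul (by positivity), ← ENNReal.ofReal_natCast]
  apply ENNReal.ofReal_le_ofReal
  have ha' : 0 < a⁻¹ := inv_pos.2 ha
  have b1 : R / a - 1 ≤ ⌊R / a⌋₊ := (Nat.sub_one_lt_floor _).le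
  have b2 : R / a⁻¹ - 1 ≤ ⌊R / a⁻¹⌋₊ := (Nat.sub_one_lt_floor _).le
  have b3 : 0 ≤ R / a - 1 := by
    rw [sub_nonneg, le_div_iff₀ ha]; linarith
  have b4 : 0 ≤ R / a⁻¹ - 1 := by
    rw [sub_nonneg, le_div_iff₀ ha']; linarith
  have b5 : (m : ℝ) + 1 ≤ T.card := by exact_mod_cast hm
  have b6 : (R / a - 1) * (R / a⁻¹ - 1) = R ^ 2 - R * c + 1 := by
    rw [hc]; field_simp; ring
  push_cast
  calc ((m : ℝ) + 1 / 2) * R ^ 2 ≤ (m + 1) * ((R / a - 1) * (R / a⁻¹ - 1)) := by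
        rw [b6]; nlinarith
    _ ≤ _ := by gcongr

end Pool.Agent.H35Z.Herm
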