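import Mathlib
import Pool.Agent.H35Z.Herm.Defs

set_option autoImplicit false

namespace Pool.Agent.H35Z.Herm

open Real Polynomial

/-- The derivatives of the Gaussian. -/
noncomputable def phi (n : ℕ) : ℝ → ℝ :=
  iteratedDeriv n (fun s : ℝ => Real.exp (-2 * Real.pi * s ^ 2))

lemma hasDerivAt_poly_gauss (P : ℝ[X]) (t : ℝ) :
    HasDerivAt (fun s : ℝ => P.eval s * Real.exp (-2 * π * s ^ 2))
      ((derivative P - C (4 * π) * X * P).eval t * Real.exp (-2 * π * t ^ 2)) t := by
  have h1 := P.hasDerivAt t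
  have h2 : HasDerivAt (fun s : ℝ => -2 * π * s ^ 2) (-2 * π * (2 * t)) t := by
    have := (hasDerivAt_pow 2 t).const_mul (-2 * π)
    simpa using this
  have h3 := h1.mul h2.exp
  have e : (derivative P - C (4 * π) * X * P).eval t * Real.exp (-2 * π * t ^ 2) =
      eval t (derivative P) * rexp (-2 * π * t ^ 2) +
        eval t P * (rexp (-2 * π * t ^ 2) * (-2 * π * (2 * t))) := by
    simp only [eval_sub, eval_mul, eval_C, eval_X]
    ring
  rw [e]
  exact h3

lemma phi_poly (n : ℕ) : ∃ P : ℝ[X], phi n = fun s => P.eval s * Real.exp (-2 * π * s ^ 2) := by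
  induction n with
  | zero => exact ⟨1, by ext s; simp [phi]⟩
  | succ n ih =>
    obtain ⟨P, hP⟩ := ih
    refine ⟨derivative P - C (4 * π) * X * P, ?_⟩
    have : phi (n + 1) = deriv (phi n) := by simp [phi, iteratedDeriv_succ]
    rw [this, hP]
    ext t
    exact (hasDerivAt_poly_gauss P t).deriv

lemma phi_hasDerivAt (n : ℕ) (t : ℝ) : HasDerivAt (phi n) (phi (n + 1) t) t := by
  have : phi (n + 1) = deriv (phi n) := by simp [phi, iteratedDeriv_succ]
  rw [this]
  obtain ⟨P, hP⟩ := phi_poly n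
  rw [hP]
  exact (hasDerivAt_poly_gauss P t).differentiableAt.hasDerivAt

lemma poly_bound (P : ℝ[X]) :
    ∃ K : ℝ, 0 ≤ K ∧ ∀ t : ℝ, |P.eval t| * Real.exp (-(π * t ^ 2)) ≤ K * Real.exp (-|t|) := by
  induction P using Polynomial.induction_on' with
  | add p q hp hq =>
    obtain ⟨K1, h1, hp⟩ := hp
    obtain ⟨K2, h2, hq⟩ := hq
    refine ⟨K1 + K2, by positivity, fun t => ?_⟩
    have := hp t
    have := hq t
    have h3 : |(p + q).eval t| ≤ |p.eval t| + |q.eval t| := by
      rw [eval_add]; exact abs_add_le _ _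
    have h4 := Real.exp_pos (-(π * t ^ 2))
    nlinarith
  | monomial k c =>
    refine ⟨|c| * k.factorial * Real.exp 1, by positivity, fun t => ?_⟩
    have h1 : |t| ^ k / k.factorial ≤ Real.exp |t| := Real.pow_div_factorial_le_exp _ (abs_nonneg t) k
    have hk : (0 : ℝ) < k.factorial := by exact_mod_cast k.factorial_pos
    rw [div_le_iff₀ hk] at h1
    have h2 : Real.exp |t| * Real.exp (-(π * t ^ 2)) ≤ Real.exp 1 * Real.exp (-|t|) := by
      rw [← Real.exp_add, ← Real.exp_add]
      apply Real.exp_le_exp.2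
      have := Real.pi_gt_three
      have h5 : t ^ 2 = |t| ^ 2 := (sq_abs t).symm
      rw [h5]
      nlinarith [sq_nonneg (|t| - 1), sq_nonneg |t|]
    rw [eval_monomial, abs_mul, abs_pow]
    have h4 := Real.exp_pos (-(π * t ^ 2))
    calc |c| * |t| ^ k * Real.exp (-(π * t ^ 2))
        ≤ |c| * (Real.exp |t| * k.factorial) * Real.exp (-(π * t ^ 2)) := by gcongr
      _ = |c| * k.factorial * (Real.exp |t| * Real.exp (-(π * t ^ 2))) := by ring
      _ ≤ |c| * k.factorial * (Real.exp 1 * Real.exp (-|t|)) := by gcongr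
      _ = _ := by ring

lemma phi_bound (n : ℕ) : ∃ K : ℝ, 0 ≤ K ∧ ∀ t : ℝ,
    |Real.exp (π * t ^ 2) * phi n t| ≤ K * Real.exp (-|t|) := by
  obtain ⟨P, hP⟩ := phi_poly n
  obtain ⟨K, hK, h⟩ := poly_bound P
  refine ⟨K, hK, fun t => ?_⟩
  have e : Real.exp (π * t ^ 2) * phi n t = P.eval t * Real.exp (-(π * t ^ 2)) := by
    rw [hP]
    have : Real.exp (-(π * t ^ 2)) = Real.exp (π * t ^ 2) * Real.exp (-2 * π * t ^ 2) := by
      rw [← Real.exp_add]; congr 1; ring
    rw [this]; ring
  rw [e, abs_mul, abs_of_pos (Real.exp_pos _)]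
  exact h t

lemma phi_small (n : ℕ) (e : ℝ) (he : 0 < e) : ∃ M : ℝ, ∀ t : ℝ, M ≤ |t| → |phi n t| < e := by
  obtain ⟨K, hK, h⟩ := phi_bound n
  refine ⟨K / e, fun t ht => ?_⟩
  have h1 := h t
  rw [abs_mul, abs_of_pos (Real.exp_pos _)] at h1
  have h2 : 1 ≤ Real.exp (π * t ^ 2) := Real.one_le_exp (by positivity)
  have h3 : |phi n t| ≤ K * Real.exp (-|t|) := by nlinarith [abs_nonneg (phi n t)]
  have h4 : |t| + 1 ≤ Real.exp |t| := Real.add_one_le_exp _
  have h5 : Real.exp (-|t|) * Real.exp |t| = 1 := by rw [← Real.exp_add]; simp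
  rw [div_le_iff₀ he] at ht
  have h6 := Real.exp_pos (-|t|)
  have h7 : K * Real.exp (-|t|) < e := by
    have : K < e * Real.exp |t| := by nlinarith
    calc K * Real.exp (-|t|) < e * Real.exp |t| * Real.exp (-|t|) := by gcongr
      _ = e := by rw [mul_assoc, mul_comm (Real.exp |t|), h5, mul_one]
  linarith

lemma phi_signs (n : ℕ) : ∃ p : ℕ → ℝ, (∀ i < n, p i < p (i + 1)) ∧
    ∀ i ≤ n, 0 < (-1) ^ i * phi n (p i) := by
  induction n with
  | zero =>
    refine ⟨fun _ => 0, by simp, fun i hi => ?_⟩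
    obtain rfl : i = 0 := by omega
    simp [phi]
  | succ n ih =>
    obtain ⟨p, hp, hs⟩ := ih
    have h0 : 0 < phi n (p 0) := by simpa using hs 0 (by omega)
    have hn := hs n le_rfl
    obtain ⟨M0, hM0⟩ := phi_small n _ h0
    obtain ⟨M1, hM1⟩ := phi_small n _ hn
    set sL : ℝ := min (p 0 - 1) (-M0) with hsL
    set sR : ℝ := max (p n + 1) M1 with hsR
    have hL1 : sL < p 0 := lt_of_le_of_lt (min_le_left _ _) (by linarith)
    have hL2 : |phi n sL| < phi n (p 0) := by
      apply hM0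
      rw [le_abs]; right
      have := min_le_right (p 0 - 1) (-M0)
      linarith
    have hR1 : p n < sR := lt_of_lt_of_le (by linarith) (le_max_left _ _)
    have hR2 : |phi n sR| < (-1) ^ n * phi n (p n) := by
      apply hM1
      rw [le_abs]; left
      exact le_max_right _ _
    let p' : ℕ → ℝ := fun i => if i = 0 then sL else if i ≤ n + 1 then p (i - 1) else sR
    have hp'1 : ∀ i ≤ n + 1, p' i < p' (i + 1) := by
      intro i hi
      rcases Nat.eq_zero_or_pos i with rfl | hi0
      · simp [p', hL1]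
      · obtain ⟨j, rfl⟩ : ∃ j, i = j + 1 := ⟨i - 1, by omega⟩
        by_cases hj : j < n
        · have a1 : j + 1 ≤ n + 1 := by omega
          have a2 : j + 1 + 1 ≤ n + 1 := by omega
          simp only [p', a1, a2, if_true, Nat.add_sub_cancel, Nat.add_eq_zero_iff, one_ne_zero,
            and_false, if_false]
          exact hp j hj
        · obtain rfl : j = n := by omega
          have a2 : ¬ (j + 1 + 1 ≤ j + 1) := by omega
          simp only [p', a2, le_refl, if_true, Nat.add_sub_cancel, Nat.add_eq_zero_iff,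
            one_ne_zero, and_false, if_false]
          exact hR1
    have hp'2 : ∀ i ≤ n + 1, 0 < (-1) ^ i * (phi n (p' (i + 1)) - phi n (p' i)) := by
      intro i hi
      rcases Nat.eq_zero_or_pos i with rfl | hi0
      · have := le_abs_self (phi n sL)
        simp only [p', pow_zero, one_mul, zero_add, one_ne_zero, if_false, if_true,
          le_add_iff_nonneg_left, zero_le, Nat.sub_self]
        linarith
      · obtain ⟨j, rfl⟩ : ∃ j, i = j + 1 := ⟨i - 1, by omega⟩
        by_cases hj : j < n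
        · have a1 : j + 1 ≤ n + 1 := by omega
          have a2 : j + 1 + 1 ≤ n + 1 := by omega
          simp only [p', a1, a2, if_true, Nat.add_sub_cancel, Nat.add_eq_zero_iff, one_ne_zero,
            and_false, if_false]
          have b1 := hs j hj.le
          have b2 := hs (j + 1) hj
          rw [pow_succ] at b2 ⊢
          linarith
        · obtain rfl : j = n := by omega
          have a2 : ¬ (j + 1 + 1 ≤ j + 1) := by omega
          simp only [p', a2, le_refl, if_true, Nat.add_sub_cancel, Nat.add_eq_zero_iff,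
            one_ne_zero, and_false, if_false]
          have b1 : (-1) ^ j * phi j sR ≤ |phi j sR| := by
            have := le_abs_self ((-1 : ℝ) ^ j * phi j sR)
            rwa [abs_mul, abs_pow, abs_neg, abs_one, one_pow, one_mul] at this
          rw [pow_succ]
          linarith
    have hq : ∀ i, ∃ q : ℝ, i ≤ n + 1 → (p' i < q ∧ q < p' (i + 1)) ∧
        0 < (-1) ^ i * phi (n + 1) q := by
      intro i
      by_cases hi : i ≤ n + 1
      · obtain ⟨q, hq1, hq2⟩ := exists_hasDerivAt_eq_slope (phi n) (phi (n + 1)) (hp'1 i hi)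
          (fun x _ => (phi_hasDerivAt n x).continuousAt.continuousWithinAt)
          (fun x _ => phi_hasDerivAt n x)
        refine ⟨q, fun _ => ⟨hq1, ?_⟩⟩
        rw [hq2, ← mul_div_assoc]
        exact div_pos (hp'2 i hi) (sub_pos.2 (hp'1 i hi))
      · exact ⟨0, fun h => absurd h hi⟩
    choose q hq using hq
    refine ⟨q, fun i hi => ?_, fun i hi => (hq i hi).2⟩
    exact ((hq i hi.le).1.2).trans (hq (i + 1) hi).1.1

lemma phi_cont (n : ℕ) : Continuous (phi n) :=
  continuous_iff_continuousAt.2 fun t => (phi_hasDerivAt n t).continuousAt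

lemma phi_one_odd (t : ℝ) : phi 1 (-t) = -phi 1 t := by
  have h : ∀ s, phi 1 s = -(4 * π) * s * Real.exp (-2 * π * s ^ 2) := by
    intro s
    have h1 := hasDerivAt_poly_gauss 1 s
    have h2 := phi_hasDerivAt 0 s
    have e : phi 0 = fun s : ℝ => (1 : ℝ[X]).eval s * Real.exp (-2 * π * s ^ 2) := by
      ext s; simp [phi]
    rw [e] at h2
    rw [h2.unique h1]
    simp
  rw [h, h]
  simp

/-- The normalised function `e^{π t²} φ_n(t)`. -/
noncomputable def psi (n : ℕ) (t : ℝ) : ℝ := Real.exp (π * t ^ 2) * phi n t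

lemma hermite_eq (n : ℕ) : ∃ c : ℝ, ∀ t, hermiteFn n t = c * psi n t :=
  ⟨(-1) ^ n * ((2 : ℝ) ^ ((1 : ℝ) / 4) / Real.sqrt (n.factorial * (2 * Real.pi) ^ n * 2 ^ n)),
    fun t => by simp only [hermiteFn, psi, phi]; ring⟩

lemma psi_cont (n : ℕ) : Continuous (psi n) := by
  have := phi_cont n
  unfold psi
  fun_prop

lemma psi_bound (n : ℕ) : ∃ K : ℝ, 0 ≤ K ∧ ∀ t : ℝ, |psi n t| ≤ K * Real.exp (-|t|) :=
  phi_bound n

lemma psi_signs (n : ℕ) : ∃ p : ℕ → ℝ, (∀ i < n, p i < p (i + 1)) ∧
    ∀ i ≤ n, 0 < (-1) ^ i * psi n (p i) := by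
  obtain ⟨p, h1, h2⟩ := phi_signs n
  refine ⟨p, h1, fun i hi => ?_⟩
  have := mul_pos (Real.exp_pos (π * p i ^ 2)) (h2 i hi)
  unfold psi
  linarith

lemma psi_one_odd (t : ℝ) : psi 1 (-t) = -psi 1 t := by
  simp [psi, phi_one_odd]

end Pool.Agent.H35Z.Herm
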