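import Mathlib
import Pool.Agent.H35Z.Herm.Sign
import Pool.Agent.H35Z.Herm.Geo

set_option autoImplicit false

namespace Pool.Agent.H35Z.Herm

open MeasureTheory Real

lemma zak_zeros (ψ : ℝ → ℝ) (hψ : Continuous ψ) (K : ℝ) (hK : 0 ≤ K)
    (hb : ∀ s, |ψ s| ≤ K * Real.exp (-|s|)) (n : ℕ) (p : ℕ → ℝ) (hp : ∀ i < n, p i < p (i + 1))
    (hs : ∀ i ≤ n, 0 < (-1) ^ i * ψ (p i)) :
    ∀ᶠ a in Filter.atTop, ∀ e : ℤ → ℝ, (∀ j, |e j| ≤ 1) → e 0 = 1 →
      ∀ i < n, ∃ y, p i < y ∧ y < p (i + 1) ∧ ∑' j : ℤ, e j * ψ (y + j * a) = 0 := by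
  have ht : Filter.Tendsto (fun a : ℝ => Real.exp (-a) / (1 - Real.exp (-a))) Filter.atTop
      (nhds 0) := by
    have h1 := Real.tendsto_exp_neg_atTop_nhds_zero
    have h2 := h1.div (h1.const_sub 1) (by norm_num)
    rw [zero_div] at h2
    exact h2
  have hev : ∀ᶠ a in Filter.atTop, ∀ i ∈ Finset.range (n + 1),
      2 * (K * Real.exp |p i|) * (Real.exp (-a) / (1 - Real.exp (-a))) < (-1) ^ i * ψ (p i) := by
    rw [Filter.eventually_all_finset]
    intro i hi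
    have h1 := ht.const_mul (2 * (K * Real.exp |p i|))
    rw [mul_zero] at h1
    exact h1.eventually_lt_const (hs i (by simpa [Nat.lt_succ_iff] using hi))
  filter_upwards [hev, Filter.eventually_gt_atTop 0] with a hA ha e he he0 i hi
  have hr : Real.exp (-a) < 1 := Real.exp_lt_one_iff.2 (by linarith)
  have hu : ∀ (j : ℤ) (y : ℝ), ‖e j * ψ (y + j * a)‖ ≤ K * Real.exp (-|y + j * a|) := by
    intro j y
    rw [Real.norm_eq_abs, abs_mul]
    exact (mul_le_of_le_one_left (abs_nonneg _) (he j)).trans (hb _)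
  have hc : Continuous fun y => ∑' j : ℤ, e j * ψ (y + j * a) :=
    zak_cont (fun (j : ℤ) y => e j * ψ (y + j * a)) (fun j => by fun_prop) K a hK ha hu
  have hsg : ∀ m ≤ n, 0 < (-1) ^ m * ∑' j : ℤ, e j * ψ (p m + j * a) := by
    intro m hm
    have h1 := tsum_sub_zero (fun j : ℤ => e j * ψ (p m + j * a)) (K * Real.exp |p m|)
      (Real.exp (-a)) (Real.exp_pos _).le hr
      (fun j => (hu j _).trans (exp_shift K a _ hK ha.le _ le_rfl j))
    simp only [he0, Int.cast_zero, zero_mul, add_zero, one_mul, Real.norm_eq_abs] at h1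
    have h2 := hA m (by simpa [Nat.lt_succ_iff] using hm)
    set Z := ∑' j : ℤ, e j * ψ (p m + j * a)
    have h3 : -|Z - ψ (p m)| ≤ (-1) ^ m * (Z - ψ (p m)) := by
      have := neg_abs_le ((-1 : ℝ) ^ m * (Z - ψ (p m)))
      rwa [abs_mul, abs_pow, abs_neg, abs_one, one_pow, one_mul] at this
    have h4 : 2 * (K * Real.exp |p m| * Real.exp (-a) / (1 - Real.exp (-a))) =
        2 * (K * Real.exp |p m|) * (Real.exp (-a) / (1 - Real.exp (-a))) := by ring
    linarith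
  have hc2 : Continuous fun y => (-1 : ℝ) ^ i * ∑' j : ℤ, e j * ψ (y + j * a) :=
    continuous_const.mul hc
  have h1 := hsg i hi.le
  have h2 := hsg (i + 1) hi
  rw [pow_succ] at h2
  obtain ⟨y, hy, hy0⟩ := intermediate_value_Ioo' (hp i hi).le hc2.continuousOn
    (show (0 : ℝ) ∈ Set.Ioo _ _ from ⟨by linarith, h1⟩)
  refine ⟨y, hy.1, hy.2, ?_⟩
  exact (mul_eq_zero.1 hy0).resolve_left (by positivity)

lemma ch_half (a : ℝ) (ha : 0 < a) (i : ℤ) : ch ((2 * a)⁻¹ * (i * a)) = (((-1 : ℝ) ^ i : ℝ) : ℂ) := by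
  have e : 2 * (π : ℂ) * Complex.I * (((2 * a)⁻¹ * (i * a) : ℝ) : ℂ) = i * (π * Complex.I) := by
    have : (a : ℂ) ≠ 0 := by exact_mod_cast ha.ne'
    push_cast
    field_simp
  rw [ch, e, Complex.exp_int_mul, Complex.exp_pi_mul_I]
  push_cast
  rfl

lemma ch_zero (a : ℝ) (i : ℤ) : ch (0 * (i * a)) = ((1 : ℝ) : ℂ) := by
  simp [ch]

lemma zt_zero (n : ℕ) (a ω y : ℝ) (e : ℤ → ℝ) (he : ∀ i : ℤ, ch (ω * (i * a)) = e i)
    (h : ∑' j : ℤ, e j * psi n (y + j * a) = 0) :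
    ∑' i, zt (fun t => (hermiteFn n t : ℂ)) a ω i y = 0 := by
  obtain ⟨c, hc⟩ := hermite_eq n
  have e1 : ∀ i, zt (fun t => (hermiteFn n t : ℂ)) a ω i y =
      ((c * (e i * psi n (y + i * a)) : ℝ) : ℂ) := by
    intro i
    rw [zt, he, hc]
    push_cast
    ring
  simp only [e1]
  rw [← Complex.ofReal_tsum, tsum_mul_left, h]
  simp

lemma herm_not_frame (n : ℕ) (a : ℝ) (ha : 0 < a) (T : Finset (ℝ × ℝ))
    (hT : ∀ z ∈ T, ∑' i, zt (fun t => (hermiteFn n t : ℂ)) a z.2 i (-z.1) = 0) :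
    ¬ IsFrame (fun t => (hermiteFn n t : ℂ)) (conf a T) := by
  obtain ⟨c, hc⟩ := hermite_eq n
  obtain ⟨K, hK, hb⟩ := psi_bound n
  refine not_frame _ ?_ (|c| * K) a (by positivity) ha (fun s => ?_) T hT
  · simp only [hc]
    exact Complex.continuous_ofReal.comp (continuous_const.mul (psi_cont n))
  · rw [Complex.norm_real, hc, Real.norm_eq_abs, abs_mul, mul_assoc]
    exact mul_le_mul_of_nonneg_left (hb s) (abs_nonneg c)

lemma exists_config (n : ℕ) : ∃ (a u : ℝ) (T : Finset (ℝ × ℝ)), 0 < a ∧ T.card = 2 * n ∧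
    (∀ z ∈ T, z.1 ∈ Set.Ico u (u + a) ∧ z.2 ∈ Set.Ico 0 (0 + a⁻¹)) ∧
    ∀ z ∈ T, ∑' i, zt (fun t => (hermiteFn n t : ℂ)) a z.2 i (-z.1) = 0 := by
  classical
  obtain ⟨K, hK, hb⟩ := psi_bound n
  obtain ⟨p, hp, hs⟩ := psi_signs n
  obtain ⟨a, hz, ha1, ha⟩ := ((zak_zeros (psi n) (psi_cont n) K hK hb n p hp hs).and
    ((Filter.eventually_ge_atTop (p n - p 0)).and (Filter.eventually_gt_atTop 0))).exists
  have hmono : ∀ j ≤ n, ∀ i ≤ j, p i ≤ p j := by
    intro j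
    induction j with
    | zero => intro _ i hi; obtain rfl : i = 0 := by omega
              exact le_rfl
    | succ j ih =>
      intro hj i hi
      rcases Nat.lt_or_ge j i with h | h
      · obtain rfl : i = j + 1 := by omega
        exact le_rfl
      · exact (ih (by omega) i h).trans (hp j hj).le
  let e : Bool → ℤ → ℝ := fun b i => if b then (-1) ^ i else 1
  let ω : Bool → ℝ := fun b => if b then (2 * a)⁻¹ else 0
  have heω : ∀ b (i : ℤ), ch (ω b * (i * a)) = e b i := by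
    intro b i
    cases b
    · exact ch_zero a i
    · exact ch_half a ha i
  have hy : ∀ q : ℕ × Bool, ∃ y, q.1 < n →
      p q.1 < y ∧ y < p (q.1 + 1) ∧ ∑' j : ℤ, e q.2 j * psi n (y + j * a) = 0 := by
    rintro ⟨i, b⟩
    by_cases hi : i < n
    · obtain ⟨y, hy⟩ := hz (e b) (fun j => by cases b <;> simp [e, abs_zpow])
        (by cases b <;> simp [e]) i hi
      exact ⟨y, fun _ => hy⟩
    · exact ⟨0, fun h => absurd h hi⟩
  choose y hy using hy
  refine ⟨a, -p n, (Finset.range n ×ˢ (Finset.univ : Finset Bool)).image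
    fun q => (-y q, ω q.2), ha, ?_, ?_, ?_⟩
  · rw [Finset.card_image_of_injOn]
    · simp [mul_comm]
    · rintro ⟨i, b⟩ hi ⟨j, b'⟩ hj h
      simp only [Finset.coe_product, Set.mem_prod, Finset.mem_coe, Finset.mem_range] at hi hj
      simp only [Prod.mk.injEq, neg_inj] at h
      have hb : b = b' := by
        have h0 : (2 * a)⁻¹ ≠ 0 := by positivity
        have h2 := h.2
        cases b <;> cases b'
        · rfl
        · exact absurd h2.symm h0
        · exact absurd h2 h0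
        · rfl
      subst hb
      have a1 := hy (i, b) hi.1
      have a2 := hy (j, b) hj.1
      have h1 := h.1
      simp only at a1 a2
      rcases lt_trichotomy i j with hij | rfl | hij
      · have := hmono j hj.1.le (i + 1) hij
        linarith [a1.2.1, a2.1]
      · rfl
      · have := hmono i hi.1.le (j + 1) hij
        linarith [a1.1, a2.2.1]
  · intro z hz
    obtain ⟨⟨i, b⟩, hi, rfl⟩ := Finset.mem_image.1 hz
    simp only [Finset.mem_product, Finset.mem_range] at hi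
    have a1 := hy (i, b) hi.1
    simp only at a1
    have a2 := hmono n le_rfl (i + 1) hi.1
    have a3 := hmono i hi.1.le 0 (Nat.zero_le _)
    refine ⟨⟨by linarith [a1.2.1], by linarith [a1.1]⟩, ?_⟩
    have h0 : 0 < a⁻¹ := inv_pos.2 ha
    cases b
    · exact ⟨le_rfl, by simpa [ω] using ha⟩
    · refine ⟨by simp only [ω, if_true]; positivity, ?_⟩
      simp only [ω, if_true, zero_add, mul_inv]
      linarith
  · intro z hz
    obtain ⟨⟨i, b⟩, hi, rfl⟩ := Finset.mem_image.1 hz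
    simp only [Finset.mem_product, Finset.mem_range] at hi
    simp only [neg_neg]
    exact zt_zero n a _ _ (e b) (heω b) (hy (i, b) hi.1).2.2

lemma tsum_odd (u : ℤ → ℝ) (σ : ℤ ≃ ℤ) (h : ∀ i, u (σ i) = -u i) : ∑' i, u i = 0 := by
  have h1 := σ.tsum_eq u
  simp only [h, tsum_neg] at h1
  linarith

lemma exists_config_one : ∃ (a u : ℝ) (T : Finset (ℝ × ℝ)), 0 < a ∧ T.card = 3 ∧
    (∀ z ∈ T, z.1 ∈ Set.Ico u (u + a) ∧ z.2 ∈ Set.Ico 0 (0 + a⁻¹)) ∧
    ∀ z ∈ T, ∑' i, zt (fun t => (hermiteFn 1 t : ℂ)) a z.2 i (-z.1) = 0 := by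
  classical
  refine ⟨1, -1 / 2, {(0, 0), (0, (2 * 1)⁻¹), (-1 / 2, 0)}, one_pos, ?_, ?_, ?_⟩
  · rw [Finset.card_eq_three]
    refine ⟨_, _, _, ?_, ?_, ?_, rfl⟩ <;> norm_num
  · intro z hz
    simp only [Finset.mem_insert, Finset.mem_singleton] at hz
    rcases hz with rfl | rfl | rfl <;> norm_num
  · intro z hz
    simp only [Finset.mem_insert, Finset.mem_singleton] at hz
    rcases hz with rfl | rfl | rfl
    · refine zt_zero 1 1 _ _ (fun _ => 1) (ch_zero 1) (tsum_odd _ (Equiv.neg ℤ) fun i => ?_)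
      simp [psi_one_odd]
    · refine zt_zero 1 1 _ _ (fun i => (-1) ^ i) (ch_half 1 one_pos)
        (tsum_odd _ (Equiv.neg ℤ) fun i => ?_)
      have : ((-1 : ℝ) ^ i)⁻¹ = (-1) ^ i := by rw [← inv_zpow, inv_neg, inv_one]
      simp [psi_one_odd, this]
    · refine zt_zero 1 1 _ _ (fun _ => 1) (ch_zero 1)
        (tsum_odd _ (Equiv.subLeft (-1)) fun i => ?_)
      simp only [one_mul, mul_one, Equiv.subLeft_apply]
      rw [← psi_one_odd]
      congr 1
      push_cast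
      ring

theorem main (n : ℕ) (hn : 1 ≤ n) : ∃ Γ : Set (ℝ × ℝ), IsSeparated Γ ∧
    (n : ENNReal) + 1 < lowerDensity Γ ∧ ¬ IsFrame (fun t => (hermiteFn n t : ℂ)) Γ := by
  have key : ∃ (a u : ℝ) (T : Finset (ℝ × ℝ)), 0 < a ∧ n + 1 < T.card ∧
      (∀ z ∈ T, z.1 ∈ Set.Ico u (u + a) ∧ z.2 ∈ Set.Ico 0 (0 + a⁻¹)) ∧
      ∀ z ∈ T, ∑' i, zt (fun t => (hermiteFn n t : ℂ)) a z.2 i (-z.1) = 0 := by
    rcases hn.eq_or_lt with rfl | h
    · obtain ⟨a, u, T, h1, h2, h3⟩ := exists_config_one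
      exact ⟨a, u, T, h1, by omega, h3⟩
    · obtain ⟨a, u, T, h1, h2, h3⟩ := exists_config n
      exact ⟨a, u, T, h1, by omega, h3⟩
  obtain ⟨a, u, T, ha, hc, h1, h2⟩ := key
  refine ⟨conf a T, conf_sep a ha T, ?_, herm_not_frame n a ha T h2⟩
  have := conf_density a u 0 ha T h1 (n + 1) hc
  exact_mod_cast this

end Pool.Agent.H35Z.Herm
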